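import Mathlib

/-!
# MP_11675a_co: equilateral polygons whose size is the largest prime factor of m
-/

open Finset

namespace Pool.Agent.Results.MP_11675a_co.LargestPrime

/-- The lattice generated by `(1,0)` and `(0,√m)`. -/
def Lam (m : ℕ) : Set (EuclideanSpace ℝ (Fin 2)) :=
  {x | ∃ a b : ℤ, x = !₂[(a : ℝ), (b : ℝ) * Real.sqrt m]}

/-- An equilateral `n`-gon (closed polygon, not necessarily convex) in the lattice. -/
def HasEquilateral (m n : ℕ) : Prop :=
  ∃ v : ℕ → EuclideanSpace ℝ (Fin 2), (∀ k, v k ∈ Lam m) ∧ v n = v 0 ∧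
    ∃ L : ℝ, 0 < L ∧ ∀ k < n, dist (v k) (v (k + 1)) = L

/-- `n` nonzero lattice vectors of the same length with sum zero give a polygon. -/
theorem of_vectors (m n : ℕ) (e : ℕ → ℤ × ℤ) (N : ℤ) (hN : 0 < N)
    (h : ∀ k < n, (e k).1 ^ 2 + m * (e k).2 ^ 2 = N)
    (hs1 : ∑ k ∈ range n, (e k).1 = 0) (hs2 : ∑ k ∈ range n, (e k).2 = 0) :
    HasEquilateral m n := by
  refine ⟨fun k => !₂[((∑ i ∈ range k, (e i).1 : ℤ) : ℝ),
    ((∑ i ∈ range k, (e i).2 : ℤ) : ℝ) * Real.sqrt m], fun k => ⟨_, _, rfl⟩, ?_,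
    Real.sqrt N, ?_, ?_⟩
  · simp [hs1, hs2]
  · exact Real.sqrt_pos.2 (by exact_mod_cast hN)
  · intro k hk
    have h1 := h k hk
    have h2 : ((e k).1 : ℝ) ^ 2 + m * ((e k).2 : ℝ) ^ 2 = N := by exact_mod_cast h1
    rw [EuclideanSpace.dist_eq]
    congr 1
    simp only [Fin.sum_univ_two, sum_range_succ]
    simp only [Real.dist_eq, sq_abs]
    push_cast
    simp
    have h3 : Real.sqrt m ^ 2 = m := Real.sq_sqrt (by positivity)
    ring_nf
    rw [h3]
    linarith

/-- The triangle construction: an odd number `n = A + B + C` with `A, B, C` odd and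
`n A B C = m w ^ 2`. -/
theorem triangle (m n A B C w : ℕ) (hA : Odd A) (hB : Odd B) (hC : Odd C)
    (hn : n = A + B + C) (hw : n * A * B * C = m * w ^ 2) : HasEquilateral m n := by
  obtain ⟨A', rfl⟩ := hA
  obtain ⟨B', rfl⟩ := hB
  obtain ⟨C', rfl⟩ := hC
  -- side multiplicities
  set a : ℕ := B' + C' + 1 with ha
  set b : ℕ := A' + C' + 1 with hb
  set c : ℕ := A' + B' + 1 with hc
  have hnabc : n = a + b + c := by omega
  have hheron : ((c : ℤ) ^ 2 - a ^ 2 - b ^ 2) ^ 2 + m * w ^ 2 = 4 * a ^ 2 * b ^ 2 := by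
    have : (m : ℤ) * w ^ 2 = n * (2 * A' + 1) * (2 * B' + 1) * (2 * C' + 1) := by
      exact_mod_cast hw.symm
    rw [this, hn]
    simp only [ha, hb, hc]
    push_cast
    ring
  have hheron' : ((b : ℤ) ^ 2 - a ^ 2 - c ^ 2) ^ 2 + m * w ^ 2 = 4 * a ^ 2 * c ^ 2 := by
    have : (m : ℤ) * w ^ 2 = n * (2 * A' + 1) * (2 * B' + 1) * (2 * C' + 1) := by
      exact_mod_cast hw.symm
    rw [this, hn]
    simp only [ha, hb, hc]
    push_cast
    ring
  have ha0 : (0 : ℤ) < a := by positivity
  have hb0 : (0 : ℤ) < b := by positivity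
  have hc0 : (0 : ℤ) < c := by positivity
  let e : ℕ → ℤ × ℤ := fun k =>
    if k < a then (2 * a * b * c, 0)
    else if k < a + b then (c * (c ^ 2 - a ^ 2 - b ^ 2), c * w)
    else (b * (b ^ 2 - a ^ 2 - c ^ 2), -(b * w))
  have hsplit : ∀ f : ℕ → ℤ, ∑ k ∈ range n, f k
      = ∑ k ∈ range a, f k + ∑ k ∈ range b, f (a + k) + ∑ k ∈ range c, f (a + b + k) := by
    intro f
    rw [hnabc, sum_range_add, sum_range_add]
  refine of_vectors m n e ((2 * a * b * c) ^ 2) (by positivity) ?_ ?_ ?_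
  · intro k hk
    simp only [e]
    split_ifs with h1 h2
    · simp
    · simp only
      linear_combination (c : ℤ) ^ 2 * hheron
    · simp only
      linear_combination (b : ℤ) ^ 2 * hheron'
  · rw [hsplit]
    have e1 : ∑ k ∈ range a, (e k).1 = ∑ k ∈ range a, (2 * a * b * c : ℤ) := by
      refine sum_congr rfl fun k hk => ?_
      simp only [mem_range] at hk
      simp [e, hk]
    have e2 : ∑ k ∈ range b, (e (a + k)).1 = ∑ k ∈ range b, (c * (c ^ 2 - a ^ 2 - b ^ 2) : ℤ) := by
      refine sum_congr rfl fun k hk => ?_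
      simp only [mem_range] at hk
      simp [e, hk]
    have e3 : ∑ k ∈ range c, (e (a + b + k)).1
        = ∑ k ∈ range c, (b * (b ^ 2 - a ^ 2 - c ^ 2) : ℤ) := by
      refine sum_congr rfl fun k hk => ?_
      have h1 : ¬ (a + b + k < a) := by omega
      have h2 : ¬ (a + b + k < a + b) := by omega
      simp only [e, h1, h2, if_false]
    rw [e1, e2, e3]
    simp only [sum_const, card_range, nsmul_eq_mul]
    ring
  · rw [hsplit]
    have e1 : ∑ k ∈ range a, (e k).2 = ∑ k ∈ range a, (0 : ℤ) := by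
      refine sum_congr rfl fun k hk => ?_
      simp only [mem_range] at hk
      simp [e, hk]
    have e2 : ∑ k ∈ range b, (e (a + k)).2 = ∑ k ∈ range b, (c * w : ℤ) := by
      refine sum_congr rfl fun k hk => ?_
      simp only [mem_range] at hk
      simp [e, hk]
    have e3 : ∑ k ∈ range c, (e (a + b + k)).2 = ∑ k ∈ range c, (-(b * w) : ℤ) := by
      refine sum_congr rfl fun k hk => ?_
      have h1 : ¬ (a + b + k < a) := by omega
      have h2 : ¬ (a + b + k < a + b) := by omega
      simp only [e, h1, h2, if_false]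
    rw [e1, e2, e3]
    simp only [sum_const, card_range, nsmul_eq_mul]
    ring

/-- The case `m < p ^ 2`. -/
theorem small_cofactor (m p : ℕ) (hm : m % 4 = 3) (hpm : p ∣ m) (hlt : m < p ^ 2) :
    HasEquilateral m p := by
  obtain ⟨q, rfl⟩ := hpm
  have hq : q < p := by
    by_contra h
    push Not at h
    nlinarith
  have hmod : (p % 4) * (q % 4) % 4 = 3 := by rw [← Nat.mul_mod]; exact hm
  have hp4 : p % 4 < 4 := Nat.mod_lt _ (by norm_num)
  have hq4 : q % 4 < 4 := Nat.mod_lt _ (by norm_num)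
  have hcase : (p % 4 = 1 ∧ q % 4 = 3) ∨ (p % 4 = 3 ∧ q % 4 = 1) := by
    interval_cases h1 : p % 4 <;> interval_cases h2 : q % 4 <;> simp_all
  obtain ⟨r, hr⟩ : ∃ r, p = q + 2 * (2 * r + 1) := ⟨(p - q) / 4, by omega⟩
  refine triangle (p * q) p q (2 * r + 1) (2 * r + 1) (2 * r + 1) ?_ ⟨r, rfl⟩ ⟨r, rfl⟩
    (by omega) (by ring)
  rw [Nat.odd_iff]; omega

/-- **Main theorem.** -/
theorem result :
    (∀ m p : ℕ, Squarefree m → m % 4 = 3 → p.Prime → p ∣ m →
      (∀ q, q.Prime → q ∣ m → q ≤ p) → m < p ^ 2 → HasEquilateral m p) ∧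
    (∀ m p : ℕ, Squarefree m → m % 4 = 3 → p.Prime → p ∣ m →
      (∀ q, q.Prime → q ∣ m → q ≤ p) → m.primeFactors.card ≤ 2 → HasEquilateral m p) ∧
    (∀ m n A B C w : ℕ, Odd A → Odd B → Odd C → n = A + B + C →
      n * A * B * C = m * w ^ 2 → HasEquilateral m n) := by
  refine ⟨fun m p _ h4 _ hd _ hlt => small_cofactor m p h4 hd hlt, ?_, ?_⟩
  · intro m p hsq h4 hp hd hmax hcard
    refine small_cofactor m p h4 hd ?_
    obtain ⟨q, rfl⟩ := hd
    have hq0 : q ≠ 0 := by rintro rfl; simp at h4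
    have hcop : p.Coprime q := (Nat.squarefree_mul_iff.1 hsq).1
    have hqp : q.primeFactors.card ≤ 1 := by
      have h1 := hcop.primeFactors_mul
      rw [h1, card_union_of_disjoint hcop.disjoint_primeFactors, hp.primeFactors,
        card_singleton] at hcard
      omega
    have hqsq : Squarefree q := (Nat.squarefree_mul_iff.1 hsq).2.2
    have hqlt : q < p := by
      rcases Nat.lt_or_ge 0 q.primeFactors.card with h | h
      · have h1 : q.primeFactors.card = 1 := by omega
        obtain ⟨r, hr⟩ := card_eq_one.1 h1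
        have hprod := Nat.prod_primeFactors_of_squarefree hqsq
        rw [hr, prod_singleton] at hprod
        have hrp : r.Prime := Nat.prime_of_mem_primeFactors (n := q) (by rw [hr]; simp)
        have hle : q ≤ p := hmax q (hprod ▸ hrp) (dvd_mul_left q p)
        rcases hle.lt_or_eq with h | h
        · exact h
        · exfalso
          rw [h] at hcop
          rw [Nat.coprime_self] at hcop
          exact hp.one_lt.ne' hcop
      · have h1 : q.primeFactors.card = 0 := by omega
        rw [card_eq_zero, Nat.primeFactors_eq_empty] at h1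
        rcases h1 with h | h
        · exact absurd h hq0
        · rw [h]; exact hp.one_lt
    rw [pow_two]
    exact Nat.mul_lt_mul_of_pos_left hqlt hp.pos
  · intro m n A B C w hA hB hC hn hw
    exact triangle m n A B C w hA hB hC hn hw

end Pool.Agent.Results.MP_11675a_co.LargestPrime
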